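import Pool.Agent.Helper95.HV.Stmts
import Pool.Agent.Helper76.LN.FF

/-! Row FGZ of sheet HV (MP_56acfd_mp): the derivative of the far field. -/

set_option autoImplicit false

namespace Pool.Agent.Helper70.HV

open MeasureTheory Filter Topology Pool.Agent.Helper95.PW Pool.Agent.Helper95.LN
open Pool.Agent.Helper95.HV Pool.Agent.Helper76.LN.FF76

/-- derivative of a coordinate of `ξ / |ξ|^3` -/
theorem explicit (ξ : R3) (h : nr ξ ≠ 0) (l m : Fin 3) :
    HasDerivAt (fun t : ℝ => (ξ + t • (Pi.single l 1 : R3)) m /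
      nr (ξ + t • (Pi.single l 1 : R3)) ^ 3)
      ((if l = m then 1 else 0) / nr ξ ^ 3 - 3 * ξ m * ξ l / nr ξ ^ 5) 0 := by
  have hc : ∀ c : Fin 3, HasDerivAt (fun t : ℝ => (ξ + t • (Pi.single l 1 : R3)) c)
      ((Pi.single l 1 : R3) c) 0 := by
    intro c
    have h1 := ((hasDerivAt_id (0 : ℝ)).mul_const ((Pi.single l 1 : R3) c)).const_add (ξ c)
    rw [one_mul] at h1
    exact h1
  have h0 : ξ + (0 : ℝ) • (Pi.single l 1 : R3) = ξ := by rw [zero_smul, add_zero]
  have hq : HasDerivAt (fun t : ℝ => (ξ + t • (Pi.single l 1 : R3)) 0 ^ 2 +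
      (ξ + t • (Pi.single l 1 : R3)) 1 ^ 2 + (ξ + t • (Pi.single l 1 : R3)) 2 ^ 2)
      (2 * ξ l) 0 := by
    have h1 := (((hc 0).pow 2).add ((hc 1).pow 2)).add ((hc 2).pow 2)
    refine h1.congr_deriv ?_
    rw [h0]
    fin_cases l <;> simp
  have hnr : Real.sqrt (ξ 0 ^ 2 + ξ 1 ^ 2 + ξ 2 ^ 2) = nr ξ := rfl
  have hq0 : (ξ + (0 : ℝ) • (Pi.single l 1 : R3)) 0 ^ 2 +
      (ξ + (0 : ℝ) • (Pi.single l 1 : R3)) 1 ^ 2 +
      (ξ + (0 : ℝ) • (Pi.single l 1 : R3)) 2 ^ 2 ≠ 0 := by
    rw [h0]
    intro h2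
    apply h
    rw [← hnr, h2, Real.sqrt_zero]
  have hs : HasDerivAt (fun t : ℝ => nr (ξ + t • (Pi.single l 1 : R3))) (ξ l / nr ξ) 0 := by
    have h1 := hq.sqrt hq0
    refine h1.congr_deriv ?_
    rw [h0, hnr]
    field_simp
  have h3 := hs.pow 3
  have h4 : nr (ξ + (0 : ℝ) • (Pi.single l 1 : R3)) ^ 3 ≠ 0 := by
    rw [h0]
    exact pow_ne_zero _ h
  have h5 := (hc m).div h3 h4
  refine h5.congr_deriv ?_
  simp only [Pi.pow_apply, h0]
  have e1 : (Pi.single l 1 : R3) m = if l = m then 1 else 0 := by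
    rw [Pi.single_apply]
    by_cases hlm : l = m
    · rw [if_pos hlm.symm, if_pos hlm]
    · rw [if_neg (fun h => hlm h.symm), if_neg hlm]
  rw [e1]
  field_simp
  ring

/-- second derivatives of `ph` away from the origin -/
theorem ph2 (hPHA : ST_PHA) (hPHB : ST_PHB) (b : ℝ) (hb : 0 < b) (ξ : R3) (h : b < nr ξ)
    (l m : Fin 3) : pd l (pd m (ph b)) ξ =
      3 * ξ m * ξ l / nr ξ ^ 5 - (if l = m then 1 else 0) / nr ξ ^ 3 := by
  have hs := pd_smooth m _ (hPHA b hb).1
  have hd : HasFDerivAt (pd m (ph b)) (fderiv ℝ (pd m (ph b)) ξ) ξ :=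
    ((hs.differentiable (by simp)) ξ).hasFDerivAt
  have h1 : HasDerivAt (fun t : ℝ => pd m (ph b) (ξ + t • (Pi.single l 1 : R3)))
      (fderiv ℝ (pd m (ph b)) ξ (Pi.single l 1)) 0 := hd.hasLineDerivAt _
  have h2 := (explicit ξ (by linarith) l m).neg
  have hcont : Continuous (fun t : ℝ => nr (ξ + t • (Pi.single l 1 : R3))) :=
    nr_cont.comp (by fun_prop)
  have hev : ∀ᶠ t : ℝ in 𝓝 0, b < nr (ξ + t • (Pi.single l 1 : R3)) := by
    have := hcont.tendsto 0
    rw [zero_smul, add_zero] at this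
    exact this.eventually (lt_mem_nhds h)
  have h3 : (fun t : ℝ => pd m (ph b) (ξ + t • (Pi.single l 1 : R3))) =ᶠ[𝓝 0]
      (fun t : ℝ => -((ξ + t • (Pi.single l 1 : R3)) m /
      nr (ξ + t • (Pi.single l 1 : R3)) ^ 3)) := by
    filter_upwards [hev] with t ht
    exact (hPHB b hb).2.2.2 m _ ht.le
  have h4 := h2.congr_of_eventuallyEq h3
  have h5 := h1.unique h4
  show fderiv ℝ (pd m (ph b)) ξ (Pi.single l 1) = _
  rw [h5]
  ring

/-- the quadratic form -/
theorem tq_eq (hPHA : ST_PHA) (hPHB : ST_PHB) (b : ℝ) (hb : 0 < b) (ξ v w : R3)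
    (h : b < nr ξ) : ∑ l, ∑ m, v l * w m * pd l (pd m (ph b)) ξ = Tq ξ v w := by
  have h1 : ∀ l m, pd l (pd m (ph b)) ξ =
      3 * ξ m * ξ l / nr ξ ^ 5 - (if l = m then 1 else 0) / nr ξ ^ 3 :=
    fun l m => ph2 hPHA hPHB b hb ξ h l m
  simp only [h1]
  unfold Tq
  simp only [Fin.sum_univ_three]
  simp
  ring

theorem dbound (hMVP : ST_MVP) (hPHA : ST_PHA) (hPHB : ST_PHB) (hPHC : ST_PHC) (d : ℝ)
    (hd : 0 < d) {n M : ℕ} (X : Fin M → R3) (Z : Fin M → ℝ) (x : Cf n) (i : Fin M) (e : ℝ)
    (y : R3) (hX : Sep X d) (he : ∀ m y, nr (y - X i) ≤ d → |farE d X Z x i m y| ≤ e)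
    (hy : nr (y - X i) ≤ d / 2) (l m : Fin 3) :
    kap * |pd l (hh d X Z x i m) y| ≤ e * ∫ w, |pd l (et (d / 2)) w| := by
  have ha : 0 < d / 2 := by positivity
  have hsm : ContDiff ℝ (⊤ : ℕ∞) (hh d X Z x i m) :=
    comb_smooth _ _ _ (pd_smooth m _ (hPHA (d / 8) (by positivity)).1)
  have hsl := pd_smooth l _ hsm
  have het := hPHC.2.2.2 (d / 2) ha
  have hes := pd_smooth l _ het.1
  have hM := (hMVP (pd l (hh d X Z x i m)) y (d / 2) hsl ha).1 (by
    intro w hw
    rw [lap_pd _ hsm l w]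
    have h1 := nr_tri w y (X i)
    have h2 : nr (w - X i) < 5 / 4 * d := by linarith
    have hO : IsOpen {w : R3 | nr (w - X i) < 5 / 4 * d} :=
      isOpen_lt (nr_cont.comp (continuous_id.sub continuous_const)) continuous_const
    have h3 : lap (hh d X Z x i m) =ᶠ[𝓝 w] fun _ => (0 : ℝ) := by
      filter_upwards [hO.mem_nhds h2] with w' hw'
      exact hh_harm hPHA hPHB hPHC d hd X Z x hX i m w' (le_of_lt hw')
    unfold pd
    rw [h3.fderiv_eq]
    simp)
  -- integration by parts
  have hv : ∀ w, d / 2 ≤ nr (w - y) → et (d / 2) (w - y) = 0 := fun w hw => het.2.2.1 _ hw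
  have hv2 : ∀ w, d / 2 ≤ nr (w - y) → pd l (et (d / 2)) (w - y) = 0 :=
    fun w hw => pd_zero (d / 2) l _ het.1 het.2.2.1 _ hw
  have hcomp : IsCompact {w : R3 | nr (w - y) ≤ d / 2} := by
    refine (isCompact_closedBall y (d / 2)).of_isClosed_subset
      (isClosed_le (nr_cont.comp (continuous_id.sub continuous_const)) continuous_const) ?_
    intro w hw
    rw [Metric.mem_closedBall, dist_eq_norm]
    exact (norm_le_nr _).trans hw
  have hcs : ∀ f : R3 → ℝ, (∀ w, d / 2 ≤ nr (w - y) → f w = 0) → HasCompactSupport f := by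
    intro f hf
    refine HasCompactSupport.intro hcomp ?_
    intro w hw
    apply hf
    exact le_of_lt (lt_of_not_ge hw)
  have c1 : Continuous (fun w => et (d / 2) (w - y)) :=
    het.1.continuous.comp (continuous_id.sub continuous_const)
  have c2 : Continuous (fun w => pd l (et (d / 2)) (w - y)) :=
    hes.continuous.comp (continuous_id.sub continuous_const)
  have i1 : Integrable (fun w => hh d X Z x i m w * et (d / 2) (w - y)) :=
    (hsm.continuous.mul c1).integrable_of_hasCompactSupport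
      (hcs (fun w => hh d X Z x i m w * et (d / 2) (w - y))
        fun w hw => by show _ * _ = _; rw [hv w hw, mul_zero])
  have i2 : Integrable (fun w => pd l (hh d X Z x i m) w * et (d / 2) (w - y)) :=
    (hsl.continuous.mul c1).integrable_of_hasCompactSupport
      (hcs (fun w => pd l (hh d X Z x i m) w * et (d / 2) (w - y))
        fun w hw => by show _ * _ = _; rw [hv w hw, mul_zero])
  have i3 : Integrable (fun w => hh d X Z x i m w * pd l (et (d / 2)) (w - y)) :=
    (hsm.continuous.mul c2).integrable_of_hasCompactSupport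
      (hcs (fun w => hh d X Z x i m w * pd l (et (d / 2)) (w - y))
        fun w hw => by show _ * _ = _; rw [hv2 w hw, mul_zero])
  have hfd : ∀ w, fderiv ℝ (fun w => et (d / 2) (w - y)) w (Pi.single l 1) =
      pd l (et (d / 2)) (w - y) := by
    intro w
    unfold pd
    rw [fderiv_comp_sub]
  have hibp : ∫ w, hh d X Z x i m w * pd l (et (d / 2)) (w - y) =
      -∫ w, pd l (hh d X Z x i m) w * et (d / 2) (w - y) := by
    have h1 := integral_mul_fderiv_eq_neg_fderiv_mul_of_integrable (μ := (volume : Measure R3))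
      (f := hh d X Z x i m) (g := fun w => et (d / 2) (w - y)) (v := Pi.single l 1) i2
      (by simp only [hfd]; exact i3) i1
      (fun w _ => (hsm.differentiable (by simp)) w)
      (fun w _ => ((het.1.comp (contDiff_id.sub contDiff_const)).differentiable (by simp)) w)
    simp only [hfd] at h1
    exact h1
  have i4 : Integrable (fun w => |pd l (et (d / 2)) (w - y)|) :=
    c2.abs.integrable_of_hasCompactSupport (hcs _ fun w hw => by rw [hv2 w hw, abs_zero])
  calc kap * |pd l (hh d X Z x i m) y| = |kap * pd l (hh d X Z x i m) y| := by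
        rw [abs_mul, abs_of_pos hPHC.2.1]
    _ = |∫ w, hh d X Z x i m w * pd l (et (d / 2)) (w - y)| := by
        rw [← hM, hibp, abs_neg]
    _ ≤ ∫ w, |hh d X Z x i m w * pd l (et (d / 2)) (w - y)| := abs_integral_le_integral_abs
    _ ≤ ∫ w, e * |pd l (et (d / 2)) (w - y)| := by
        refine integral_mono i3.abs (i4.const_mul e) ?_
        intro w
        show |hh d X Z x i m w * pd l (et (d / 2)) (w - y)| ≤ e * |pd l (et (d / 2)) (w - y)|
        rw [abs_mul]
        rcases le_or_gt (d / 2) (nr (w - y)) with h | h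
        · rw [hv2 w h, abs_zero, mul_zero, mul_zero]
        · apply mul_le_mul_of_nonneg_right _ (abs_nonneg _)
          have h1 := nr_tri w y (X i)
          rw [hh_eq_farE hPHB d hd X Z x hX i m w (by linarith)]
          exact he m w (by linarith)
    _ = e * ∫ w, |pd l (et (d / 2)) w| := by
        rw [integral_const_mul]
        congr 1
        exact integral_sub_right_eq_self (fun w => |pd l (et (d / 2)) w|) y

theorem FGZ (hMVP : ST_MVP) (hPHA : ST_PHA) (hPHB : ST_PHB) (hPHC : ST_PHC) : ST_FGZ := by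
  intro d hd hd1
  obtain ⟨I, hI⟩ : ∃ I : Fin 3 → ℝ, ∀ l, I l = ∫ w, |pd l (et (d / 2)) w| := ⟨_, fun l => rfl⟩
  have hI0 : ∀ l, 0 ≤ I l := by
    intro l
    rw [hI]
    exact integral_nonneg fun w => abs_nonneg _
  have hk := hPHC.2.1
  have hIs : 0 ≤ ∑ l, I l := Finset.sum_nonneg fun l _ => hI0 l
  refine ⟨3 * (∑ l, I l) / kap + 1, by positivity, ?_⟩
  intro n M X Z x i e K v w y hX he hv hw hy
  have hb : 0 < d / 8 := by positivity
  have he0 : 0 ≤ e := by
    refine (abs_nonneg _).trans (he 0 (X i) ?_)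
    rw [sub_self]
    have : nr (0 : R3) = 0 := by unfold nr; simp
    rw [this]
    exact hd.le
  have hK0 : 0 ≤ K := (abs_nonneg _).trans (hv 0)
  have hD : ∀ l m, |pd l (hh d X Z x i m) y| ≤ e * I l / kap := by
    intro l m
    rw [le_div_iff₀ hk, mul_comm, hI]
    exact dbound hMVP hPHA hPHB hPHC d hd X Z x i e y hX he hy l m
  have hcomb : ∀ l m, pd l (hh d X Z x i m) y =
      comb (pd l (pd m (ph (d / 8)))) (cf d X Z x i) (Sum.elim x X) y := by
    intro l m
    have h0 : hh d X Z x i m = comb (pd m (ph (d / 8))) (cf d X Z x i) (Sum.elim x X) := rfl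
    rw [h0, comb_pd _ _ _ (pd_smooth m _ (hPHA (d / 8) hb).1)]
  have hid : (∑ l, if nr (x l - X i) < 3 / 2 * d then 0 else Tq (y - x l) v w) -
      ∑ j, (if j = i then 0 else Z j * Tq (y - X j) v w) =
      -∑ l, ∑ m, v l * w m * pd l (hh d X Z x i m) y := by
    have h1 : ∑ l, ∑ m, v l * w m * pd l (hh d X Z x i m) y =
        ∑ k, cf d X Z x i k * ∑ l, ∑ m, v l * w m *
          pd l (pd m (ph (d / 8))) (y - Sum.elim x X k) := by
      simp only [hcomb]
      unfold comb
      simp only [Finset.mul_sum]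
      rw [Finset.sum_congr rfl (fun l _ => Finset.sum_comm), Finset.sum_comm]
      refine Finset.sum_congr rfl fun k _ => ?_
      refine Finset.sum_congr rfl fun l _ => ?_
      refine Finset.sum_congr rfl fun m _ => ?_
      ring
    rw [h1, Fintype.sum_sum_type]
    unfold cf
    simp only [Sum.elim_inl, Sum.elim_inr]
    rw [neg_add, ← sub_eq_add_neg, ← Finset.sum_neg_distrib]
    congr 1
    · refine Finset.sum_congr rfl fun l _ => ?_
      split_ifs with h
      · simp
      · have h1 := nr_tri (x l) y (X i)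
        have h2 : d / 8 < nr (y - x l) := by
          rw [nr_comm y (x l)]
          linarith
        rw [tq_eq hPHA hPHB (d / 8) hb _ v w h2]
        ring
    · refine Finset.sum_congr rfl fun j _ => ?_
      split_ifs with h
      · simp
      · have h1 := nr_tri (X j) y (X i)
        have h3 := hX j i h
        have h2 : d / 8 < nr (y - X j) := by
          rw [nr_comm y (X j)]
          linarith
        rw [tq_eq hPHA hPHB (d / 8) hb _ v w h2]
  rw [hid, abs_neg]
  calc |∑ l, ∑ m, v l * w m * pd l (hh d X Z x i m) y|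
      ≤ ∑ l, ∑ m, |v l * w m * pd l (hh d X Z x i m) y| := by
        refine (Finset.abs_sum_le_sum_abs _ _).trans ?_
        exact Finset.sum_le_sum fun l _ => Finset.abs_sum_le_sum_abs _ _
    _ ≤ ∑ l, ∑ _m : Fin 3, K * K * (e * I l / kap) := by
        refine Finset.sum_le_sum fun l _ => Finset.sum_le_sum fun m _ => ?_
        rw [abs_mul, abs_mul]
        exact mul_le_mul (mul_le_mul (hv l) (hw m) (abs_nonneg _) hK0) (hD l m) (abs_nonneg _)
          (by positivity)
    _ = 3 * (∑ l, I l) / kap * K ^ 2 * e := by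
        simp only [Finset.sum_const, Finset.card_univ, Fintype.card_fin, nsmul_eq_mul]
        simp only [Fin.sum_univ_three]
        push_cast
        ring
    _ ≤ (3 * (∑ l, I l) / kap + 1) * K ^ 2 * e := by
        have : 0 ≤ K ^ 2 * e := by positivity
        nlinarith

end Pool.Agent.Helper70.HV
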